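import Pool.Agent.H73.IX.HLFc

/-!
# Row HLF: existential closedness passes to immediate algebraic Henselian extensions
-/

set_option autoImplicit false

open Finset

namespace Pool.Agent.H73.IX

universe u

open Pool.Agent.H15.IX

lemma alg_of_le {Λ : Type u} [Field Λ] {F' M' : Subfield Λ} [Algebra.IsAlgebraic F' Λ]
    (h : F' ≤ M') : Algebra.IsAlgebraic M' Λ := by
  let _ : Algebra F' M' := (Subfield.inclusion h).toAlgebra
  have hst : @IsScalarTower F' M' Λ Algebra.toSMul Algebra.toSMul Algebra.toSMul :=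
    IsScalarTower.of_algebraMap_eq (fun _ => rfl)
  exact Algebra.IsAlgebraic.tower_top (K := F') M'

lemma claimB (hFXD : T_FXD.{u}) (hTRC : T_TRC.{u}) {k Ω Λ : Type u} [Field k] [CharZero k]
    [Field Ω] [Algebra k Ω] [Field Λ] [CharZero Λ] [IsAlgClosed Λ] {O : ValuationSubring Ω}
    {F M : Subfield Ω} (F' : Subfield Λ) [Algebra.IsAlgebraic F' Λ] (ι : Λ →+* Ω)
    (hιF : ∀ x, x ∈ F' ↔ ι x ∈ F) (hιM : ∀ x ∈ M, ∃ y : Λ, ι y = x)
    (hint : ∀ y, IsIntegral M (ι y)) (hFM : F ≤ M) (hM : Hns O M)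
    (κ : k →+* Λ) (hκO : ∀ c, ι (κ c) ∈ O) (hκF : ∀ c, ι (κ c) ∈ F)
    (himm : ∀ x ∈ M, x ≠ 0 → ∃ y ∈ F, O.valuation (x - y) < O.valuation x)
    (x : Λ) (hx : ι x ∈ M) (σ : Λ ≃ₐ[F'] Λ) (hσ : ∀ y, ι y ∈ O ↔ ι (σ y) ∈ O) : σ x = x := by
  obtain ⟨M₁, hFM₁, hM₁, hch⟩ := hFXD Λ (O.comap ι) F'
  have hAl := alg_of_le (M' := M₁) hFM₁
  -- M₁ is contained in M
  have hle : ∀ y ∈ M₁, ι y ∈ M := by
    intro y hy
    by_contra hc
    obtain ⟨M', hM'⟩ : ∃ M' : Subfield Λ, M' = M.comap ι := ⟨_, rfl⟩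
    have hmem : ∀ z, z ∈ M' ↔ ι z ∈ M := by
      intro z
      rw [hM']
      exact Iff.rfl
    have hF'M' : F' ≤ M' := by
      intro z hz
      rw [hmem]
      exact hFM ((hιF z).1 hz)
    have hAl' := alg_of_le (M' := M') hF'M'
    have : CharZero M' := (algebraMap M' Λ).charZero
    have : IsAlgClosure M' Λ := ⟨inferInstance, hAl'⟩
    have : Normal M' Λ := IsAlgClosure.normal M' _
    have : IsGalois M' Λ := ⟨⟩
    have hex : ∃ τ : Λ ≃ₐ[M'] Λ, τ y ≠ y := by
      by_contra hne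
      push Not at hne
      have hb : y ∈ (⊥ : IntermediateField M' Λ) := by
        rw [InfiniteGalois.mem_bot_iff_fixed]
        exact hne
      obtain ⟨n, hn⟩ := IntermediateField.mem_bot.1 hb
      apply hc
      rw [← hmem, ← hn]
      exact n.2
    obtain ⟨τ, hτ⟩ := hex
    apply hτ
    obtain ⟨τ', hτ'⟩ : ∃ τ' : Λ ≃ₐ[F'] Λ, ∀ z, τ' z = τ z :=
      ⟨AlgEquiv.ofRingEquiv (f := τ.toRingEquiv) (fun r => by
        have := τ.commutes ⟨r, hF'M' r.2⟩
        exact this), fun _ => rfl⟩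
    rw [← hτ']
    apply (hch y).1 hy τ'
    intro z
    rw [hτ']
    show ι z ∈ O ↔ ι (τ z) ∈ O
    rw [← O.valuation_le_one_iff, ← O.valuation_le_one_iff]
    have h := hns_hom hM ι (ι.comp (τ : Λ →+* Λ)) (by
      intro n hn
      obtain ⟨c, hc⟩ := hιM n hn
      refine ⟨c, hc, ?_⟩
      have : τ c = c := τ.commutes ⟨c, by rw [hmem, hc]; exact hn⟩
      show ι (τ c) = n
      rw [this, hc]) z (hint z)
    have h' : O.valuation (ι (τ z)) = O.valuation (ι z) := h
    rw [h']
  suffices hs : x ∈ M₁ from (hch x).1 hs σ hσ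
  by_contra hc
  let _ : Algebra k Λ := κ.toAlgebra
  obtain ⟨a, ha, hab⟩ := hTRC k Λ (O.comap ι) M₁ hκO
    (fun c => hFM₁ ((hιF _).2 (hκF c))) hM₁ x (Algebra.IsIntegral.isIntegral x)
  have hxa : x - a ≠ 0 := by
    intro h0
    apply hc
    rw [sub_eq_zero.1 h0]
    exact ha
  obtain ⟨y, hy, hlt⟩ := himm (ι (x - a)) (by
    rw [map_sub]
    exact M.sub_mem hx (hle a ha)) (by rwa [Ne, map_eq_zero])
  obtain ⟨y', rfl⟩ := hιM y (hFM hy)
  have hy' : y' ∈ M₁ := hFM₁ ((hιF _).2 hy)
  have h1 := hab (a + y') (M₁.add_mem ha hy')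
  rw [val_hom (B := O) ι (fun _ => Iff.rfl)] at h1
  have e1 : x - (a + y') = (x - a) - y' := by ring
  rw [e1, map_sub ι (x - a) y'] at h1
  exact absurd hlt (not_lt.2 h1)

theorem pf_HLF (hCNJ : T_CNJ.{u}) (hFXD : T_FXD.{u}) (hTRC : T_TRC.{u}) (hHEN : T_HEN.{u}) :
    T_HLF.{u} := by
  classical
  intro k Ω _ _ _ _ _ _ O N F M hRs hkN hNF hFM hHN hHM hint himm hV
  have : CharZero Ω := charZero_of_injective_algebraMap (algebraMap k Ω).injective
  obtain ⟨Λ, i1, i2, i3, ι, F', i4, hιF, hιr, hιi, κ, hκ⟩ : ∃ (Λ : Type u) (_ : Field Λ)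
      (_ : CharZero Λ) (_ : IsAlgClosed Λ) (ι : Λ →+* Ω) (F' : Subfield Λ)
      (_ : Algebra.IsAlgebraic F' Λ), (∀ x, x ∈ F' ↔ ι x ∈ F) ∧
      (∀ x, IsIntegral F x → ∃ y : Λ, ι y = x) ∧ (∀ y : Λ, IsIntegral F (ι y)) ∧
      ∃ κ : k →+* Λ, ∀ c, ι (κ c) = algebraMap k Ω c := by
    have h1 : IsAlgClosed (algebraicClosure F Ω) := (algebraicClosure.isAlgClosure F Ω).isAlgClosed
    have h2 : CharZero (algebraicClosure F Ω) :=
      (algebraMap (algebraicClosure F Ω) Ω).charZero
    have hFmem : ∀ x ∈ F, x ∈ algebraicClosure F Ω := by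
      intro x hx
      exact (isIntegral_algebraMap (R := F) (A := Ω) (x := ⟨x, hx⟩) : _)
    refine ⟨algebraicClosure F Ω, inferInstance, h2, h1,
      algebraMap (algebraicClosure F Ω) Ω, F.comap (algebraMap (algebraicClosure F Ω) Ω), ?_,
      fun _ => Iff.rfl, fun x hx => ⟨⟨x, hx⟩, rfl⟩, fun y => y.2,
      (algebraMap k Ω).codRestrict (algebraicClosure F Ω) (fun c => hFmem _ (hNF (hkN c))),
      fun c => rfl⟩
    obtain ⟨e, he⟩ : ∃ e : F →+* F.comap (algebraMap (algebraicClosure F Ω) Ω),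
        ∀ x, ((e x : _) : algebraicClosure F Ω) = algebraMap F (algebraicClosure F Ω) x :=
      ⟨(algebraMap F (algebraicClosure F Ω)).codRestrict _ (fun x => x.2), fun _ => rfl⟩
    let _ : Algebra F (F.comap (algebraMap (algebraicClosure F Ω) Ω)) := e.toAlgebra
    have hst : @IsScalarTower F (F.comap (algebraMap (algebraicClosure F Ω) Ω))
        (algebraicClosure F Ω) Algebra.toSMul Algebra.toSMul Algebra.toSMul :=
      IsScalarTower.of_algebraMap_eq (fun x => (he x).symm)
    exact Algebra.IsAlgebraic.tower_top (K := F) _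
  have hcN : ∀ n ∈ N, ∃ c ∈ F', ι c = n := by
    intro n hn
    obtain ⟨c, hc⟩ := hιr n (isIntegral_algebraMap (R := F) (A := Ω) (x := ⟨n, hNF hn⟩))
    exact ⟨c, (hιF c).2 (by rw [hc]; exact hNF hn), hc⟩
  obtain ⟨I, W, jb, j1, j2, j3⟩ := exists_jb (O := O) (N := N) hCNJ F' ι
    (fun x hx => (hιF x).1 hx) hV
  -- the elements of M
  have hMM : ∀ x ∈ M, ∃ (y : Λ) (f : I → N), ι y = x ∧
      jb y = cl W _ (fun i => algebraMap N (algebraicClosure N Ω) (f i)) := by
    intro x hx
    obtain ⟨y, rfl⟩ := hιr x (hint x hx)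
    obtain ⟨f, hf⟩ := claimA F' ι hHN jb j1 j2 y (fun σ hσ =>
      claimB hFXD hTRC F' ι hιF (fun x hx => hιr x (hint x hx)) (fun z => by
        let _ : Algebra F M := (Subfield.inclusion hFM).toAlgebra
        have hst : @IsScalarTower F M Ω Algebra.toSMul Algebra.toSMul Algebra.toSMul :=
          IsScalarTower.of_algebraMap_eq (fun _ => rfl)
        exact (hιi z).tower_top) hFM hHM κ
        (fun c => by rw [hκ]; exact hRs.1 c) (fun c => by rw [hκ]; exact hNF (hkN c))
        himm y hx σ hσ)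
    exact ⟨y, f, rfl, hf⟩
  -- the constants
  have hcN' : ∀ n : N, ∃ c ∈ F', ι c = n := fun n => hcN n n.2
  obtain ⟨ν, hν⟩ : ∃ ν : N →+* Λ, ∀ n, ν n ∈ F' ∧ ι (ν n) = n := by
    choose c hc1 hc2 using hcN'
    refine ⟨{ toFun := c
              map_one' := ?_
              map_mul' := ?_
              map_zero' := ?_
              map_add' := ?_ }, fun n => ⟨hc1 n, hc2 n⟩⟩
    · apply ι.injective; rw [hc2, map_one]; rfl
    · intro a b; apply ι.injective; rw [hc2, map_mul, hc2, hc2]; rfl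
    · apply ι.injective; rw [hc2, map_zero]; rfl
    · intro a b; apply ι.injective; rw [hc2, map_add, hc2, hc2]; rfl
  intro m y hy Fs hFs
  choose y' f hy' hf using fun l : Fin m => hMM (y l) (hy l)
  have hlift : ∀ P ∈ Fs, ∃ p : MvPolynomial (Fin m) N, MvPolynomial.map (algebraMap N Ω) p = P := by
    intro P hP
    have : P ∈ Set.range (MvPolynomial.map (σ := Fin m) (algebraMap N Ω)) := by
      rw [MvPolynomial.mem_range_map_iff_coeffs_subset]
      intro c hc
      obtain ⟨s, -, rfl⟩ := MvPolynomial.mem_coeffs_iff.1 (by exact_mod_cast hc)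
      exact ⟨⟨_, hFs P hP s⟩, rfl⟩
    exact this
  have hθ : ∀ p : MvPolynomial (Fin m) N, jb (MvPolynomial.eval₂ ν y' p) =
      cl W _ (fun i => algebraMap N (algebraicClosure N Ω)
        (MvPolynomial.eval (fun l => f l i) p)) := by
    have h := MvPolynomial.ringHom_ext
      (f := jb.comp (MvPolynomial.eval₂Hom ν y'))
      (g := (cl W (algebraicClosure N Ω)).comp (RingHom.pi fun i =>
        (algebraMap N (algebraicClosure N Ω)).comp (MvPolynomial.eval (fun l => f l i)))) (by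
        intro r
        show jb (MvPolynomial.eval₂ ν y' (MvPolynomial.C r)) = cl W _ (fun i =>
          algebraMap N (algebraicClosure N Ω) (MvPolynomial.eval (fun l => f l i)
            (MvPolynomial.C r)))
        simp only [MvPolynomial.eval₂_C, MvPolynomial.eval_C]
        exact j3 _ (hν r).1 r (hν r).2) (by
        intro l
        show jb (MvPolynomial.eval₂ ν y' (MvPolynomial.X l)) = cl W _ (fun i =>
          algebraMap N (algebraicClosure N Ω) (MvPolynomial.eval (fun l => f l i)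
            (MvPolynomial.X l)))
        simp only [MvPolynomial.eval₂_X, MvPolynomial.eval_X]
        exact hf l)
    intro p
    exact RingHom.congr_fun h p
  have hι : ∀ p : MvPolynomial (Fin m) N, ι (MvPolynomial.eval₂ ν y' p) =
      MvPolynomial.eval y (MvPolynomial.map (algebraMap N Ω) p) := by
    intro p
    rw [MvPolynomial.eval_map, MvPolynomial.eval₂_comp_left]
    congr 1
    · ext n
      exact (hν n).2
    · funext l
      exact hy' l
  have hz : ∀ (p : MvPolynomial (Fin m) N) (i : I),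
      algebraMap (algebraicClosure N Ω) Ω (algebraMap N (algebraicClosure N Ω)
        (MvPolynomial.eval (fun l => f l i) p)) =
      MvPolynomial.eval (fun l => (f l i : Ω)) (MvPolynomial.map (algebraMap N Ω) p) := by
    intro p i
    rw [MvPolynomial.eval_map]
    show (algebraMap N Ω) (MvPolynomial.eval (fun l => f l i) p) = _
    rw [← MvPolynomial.eval₂_id, MvPolynomial.eval₂_comp_left, RingHom.comp_id]
    rfl
  have hcmp : ∀ p q : MvPolynomial (Fin m) N,
      (O.valuation (MvPolynomial.eval y (MvPolynomial.map (algebraMap N Ω) p)) ≤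
        O.valuation (MvPolynomial.eval y (MvPolynomial.map (algebraMap N Ω) q)) ↔
      ∀ᶠ i in (W : Filter I),
        O.valuation (MvPolynomial.eval (fun l => (f l i : Ω))
          (MvPolynomial.map (algebraMap N Ω) p)) ≤
        O.valuation (MvPolynomial.eval (fun l => (f l i : Ω))
          (MvPolynomial.map (algebraMap N Ω) q))) := by
    intro p q
    rw [← hι, ← hι, ← val_hom (A := O.comap ι) ι (fun _ => Iff.rfl),
      val_hom (B := star W (An O N)) jb j1, hθ, hθ, val_star]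
    apply Filter.eventually_congr
    apply Filter.Eventually.of_forall
    intro i
    rw [val_hom (B := O) (algebraMap (algebraicClosure N Ω) Ω) (fun _ => Iff.rfl), hz, hz]
  have hall : ∀ P ∈ Fs, ∀ Q ∈ Fs, ∀ᶠ i in (W : Filter I),
      (O.valuation (MvPolynomial.eval y P) ≤ O.valuation (MvPolynomial.eval y Q) ↔
        O.valuation (MvPolynomial.eval (fun l => (f l i : Ω)) P) ≤
        O.valuation (MvPolynomial.eval (fun l => (f l i : Ω)) Q)) := by
    intro P hP Q hQ
    obtain ⟨p, rfl⟩ := hlift P hP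
    obtain ⟨q, rfl⟩ := hlift Q hQ
    by_cases h : O.valuation (MvPolynomial.eval y (MvPolynomial.map (algebraMap N Ω) p)) ≤
        O.valuation (MvPolynomial.eval y (MvPolynomial.map (algebraMap N Ω) q))
    · filter_upwards [(hcmp p q).1 h] with i hi
      exact ⟨fun _ => hi, fun _ => h⟩
    · have h' := h
      rw [hcmp p q, ← Ultrafilter.eventually_not] at h'
      filter_upwards [h'] with i hi
      exact ⟨fun h2 => absurd h2 h, fun h2 => absurd h2 hi⟩
  have hall' : ∀ᶠ i in (W : Filter I), ∀ P ∈ Fs, ∀ Q ∈ Fs,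
      (O.valuation (MvPolynomial.eval y P) ≤ O.valuation (MvPolynomial.eval y Q) ↔
        O.valuation (MvPolynomial.eval (fun l => (f l i : Ω)) P) ≤
        O.valuation (MvPolynomial.eval (fun l => (f l i : Ω)) Q)) := by
    rw [Filter.eventually_all_finset]
    intro P hP
    rw [Filter.eventually_all_finset]
    intro Q hQ
    exact hall P hP Q hQ
  obtain ⟨i, hi⟩ := hall'.exists
  exact ⟨fun l => (f l i : Ω), fun l => (f l i).2, hi⟩

end Pool.Agent.H73.IX
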