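import Pool.Agent.H15.IX.TC

/-!
# Row HLF: ultrapowers of valued fields
-/

set_option autoImplicit false

open Finset

namespace Pool.Agent.H73.IX

universe u

section up

variable {I : Type u} (W : Ultrafilter I) (K : Type u) [Field K]

/-- the ultrapower -/
abbrev Up : Type u := Filter.Germ (W : Filter I) K

/-- the class of a sequence -/
def cl : (I → K) →+* Up W K := Filter.Germ.coeRingHom (W : Filter I)

variable {W K}

lemma cl_surj (x : Up W K) : ∃ f : I → K, cl W K f = x := Quot.exists_rep x

lemma cl_eq {f g : I → K} : cl W K f = cl W K g ↔ ∀ᶠ i in (W : Filter I), f i = g i :=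
  Filter.Germ.coe_eq

lemma up_isAlgClosed [IsAlgClosed K] : IsAlgClosed (Up W K) := by
  apply IsAlgClosed.of_exists_root
  intro p hp hirr
  have hn : p.natDegree ≠ 0 := hirr.natDegree_pos.ne'
  choose c hc using fun n : ℕ => cl_surj (W := W) (p.coeff n)
  have hex : ∀ i : I, ∃ r : K, r ^ p.natDegree +
      ∑ n ∈ range p.natDegree, c n i * r ^ n = 0 := by
    intro i
    obtain ⟨q, hq⟩ : ∃ q : Polynomial K, q = Polynomial.X ^ p.natDegree +
      ∑ n ∈ range p.natDegree, Polynomial.C (c n i) * Polynomial.X ^ n := ⟨_, rfl⟩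
    have hdeg : q.degree = p.natDegree := by
      rw [hq]
      have h1 : (∑ n ∈ range p.natDegree, Polynomial.C (c n i) * Polynomial.X ^ n).degree <
          (Polynomial.X ^ p.natDegree : Polynomial K).degree := by
        rw [Polynomial.degree_X_pow]
        refine lt_of_le_of_lt (Polynomial.degree_sum_le _ _) ?_
        rw [Finset.sup_lt_iff (WithBot.bot_lt_coe _)]
        intro n hn
        refine lt_of_le_of_lt (Polynomial.degree_C_mul_X_pow_le _ _) ?_
        exact_mod_cast mem_range.1 hn
      rw [Polynomial.degree_add_eq_left_of_degree_lt h1, Polynomial.degree_X_pow]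
    obtain ⟨r, hr⟩ := IsAlgClosed.exists_root q (by rw [hdeg]; exact_mod_cast hn)
    refine ⟨r, ?_⟩
    rw [Polynomial.IsRoot.def, hq, Polynomial.eval_add, Polynomial.eval_finsetSum] at hr
    simpa using hr
  choose r hr using hex
  refine ⟨cl W K r, ?_⟩
  have h1 : Polynomial.eval (cl W K r) p = cl W K (r ^ p.natDegree +
      ∑ n ∈ range p.natDegree, c n * r ^ n) := by
    conv_lhs => rw [hp.as_sum]
    rw [Polynomial.eval_add, Polynomial.eval_finsetSum, map_add, map_sum, map_pow]
    simp only [Polynomial.eval_pow, Polynomial.eval_X, Polynomial.eval_mul, Polynomial.eval_C,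
      map_mul, map_pow, hc]
  rw [h1, ← map_zero (cl W K)]
  congr 1
  funext i
  simpa using hr i

/-- the valuation ring of the ultrapower -/
def star (W : Ultrafilter I) (A : ValuationSubring K) : ValuationSubring (Up W K) where
  carrier := {x | Filter.Germ.LiftPred (fun a => a ∈ A) x}
  mul_mem' := by
    intro x y hx hy
    obtain ⟨f, rfl⟩ := cl_surj x
    obtain ⟨g, rfl⟩ := cl_surj y
    rw [← map_mul]
    change ∀ᶠ i in (W : Filter I), f i ∈ A at hx
    change ∀ᶠ i in (W : Filter I), g i ∈ A at hy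
    change ∀ᶠ i in (W : Filter I), f i * g i ∈ A
    filter_upwards [hx, hy] with i h1 h2 using A.mul_mem _ _ h1 h2
  one_mem' := Filter.Eventually.of_forall fun _ => A.one_mem
  add_mem' := by
    intro x y hx hy
    obtain ⟨f, rfl⟩ := cl_surj x
    obtain ⟨g, rfl⟩ := cl_surj y
    rw [← map_add]
    change ∀ᶠ i in (W : Filter I), f i ∈ A at hx
    change ∀ᶠ i in (W : Filter I), g i ∈ A at hy
    change ∀ᶠ i in (W : Filter I), f i + g i ∈ A
    filter_upwards [hx, hy] with i h1 h2 using A.add_mem _ _ h1 h2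
  zero_mem' := Filter.Eventually.of_forall fun _ => A.zero_mem
  neg_mem' := by
    intro x hx
    obtain ⟨f, rfl⟩ := cl_surj x
    rw [← map_neg]
    change ∀ᶠ i in (W : Filter I), f i ∈ A at hx
    change ∀ᶠ i in (W : Filter I), - f i ∈ A
    filter_upwards [hx] with i h1 using A.neg_mem _ h1
  mem_or_inv_mem' := by
    intro x
    obtain ⟨f, rfl⟩ := cl_surj x
    change (∀ᶠ i in (W : Filter I), f i ∈ A) ∨ ∀ᶠ i in (W : Filter I), (f i)⁻¹ ∈ A
    rw [← Ultrafilter.eventually_or]
    exact Filter.Eventually.of_forall fun i => A.mem_or_inv_mem (f i)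

lemma mem_star {A : ValuationSubring K} {f : I → K} :
    cl W K f ∈ star W A ↔ ∀ᶠ i in (W : Filter I), f i ∈ A := Iff.rfl

end up

section val

variable {K L : Type u} [Field K] [Field L]

lemma val_le_iff (A : ValuationSubring K) (x y : K) :
    A.valuation x ≤ A.valuation y ↔ ∃ c ∈ A, x = c * y := by
  constructor
  · intro h
    by_cases hy : y = 0
    · subst hy
      rw [map_zero, nonpos_iff_eq_zero, map_eq_zero] at h
      exact ⟨0, A.zero_mem, by rw [h, zero_mul]⟩
    · refine ⟨x / y, ?_, by field_simp⟩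
      rw [← A.valuation_le_one_iff, map_div₀]
      exact div_le_one_of_le₀ h zero_le
  · rintro ⟨c, hc, rfl⟩
    rw [map_mul]
    have := (A.valuation_le_one_iff c).2 hc
    exact mul_le_of_le_one_left zero_le this

lemma val_hom {A : ValuationSubring K} {B : ValuationSubring L} (f : K →+* L)
    (h : ∀ x, x ∈ A ↔ f x ∈ B) (x y : K) :
    A.valuation x ≤ A.valuation y ↔ B.valuation (f x) ≤ B.valuation (f y) := by
  rw [val_le_iff, val_le_iff]
  constructor
  · rintro ⟨c, hc, rfl⟩
    exact ⟨f c, (h c).1 hc, map_mul f c y⟩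
  · rintro ⟨d, hd, he⟩
    by_cases hy : y = 0
    · subst hy
      rw [map_zero, mul_zero, map_eq_zero] at he
      exact ⟨0, A.zero_mem, by rw [he, mul_zero]⟩
    · have hy' : f y ≠ 0 := by rwa [Ne, map_eq_zero]
      refine ⟨x / y, ?_, by field_simp⟩
      rw [h, map_div₀, he, mul_div_cancel_right₀ _ hy']
      exact hd

lemma val_star {I : Type u} {W : Ultrafilter I} {A : ValuationSubring K} (f g : I → K) :
    (star W A).valuation (cl W K f) ≤ (star W A).valuation (cl W K g) ↔
      ∀ᶠ i in (W : Filter I), A.valuation (f i) ≤ A.valuation (g i) := by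
  rw [val_le_iff]
  constructor
  · rintro ⟨c, hc, he⟩
    obtain ⟨h, rfl⟩ := cl_surj c
    rw [← map_mul, cl_eq] at he
    rw [mem_star] at hc
    filter_upwards [hc, he] with i h1 h2
    rw [val_le_iff]
    exact ⟨h i, h1, h2⟩
  · intro h
    have h' : ∀ i, ∃ c : K, A.valuation (f i) ≤ A.valuation (g i) → c ∈ A ∧ f i = c * g i := by
      intro i
      by_cases hi : A.valuation (f i) ≤ A.valuation (g i)
      · obtain ⟨c, h1, h2⟩ := (val_le_iff A _ _).1 hi
        exact ⟨c, fun _ => ⟨h1, h2⟩⟩
      · exact ⟨0, fun h => absurd h hi⟩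
    choose c hc using h'
    refine ⟨cl W K c, ?_, ?_⟩
    · rw [mem_star]
      filter_upwards [h] with i hi using (hc i hi).1
    · rw [← map_mul, cl_eq]
      filter_upwards [h] with i hi using (hc i hi).2

/-- two homomorphisms which agree on `N` give the same values if `N` is Henselian -/
lemma hns_hom {Ω : Type u} [Field Ω] {O : ValuationSubring Ω} {N : Subfield Ω}
    (hN : Pool.Agent.H15.IX.Hns O N) (a b : K →+* Ω) (h : ∀ n ∈ N, ∃ c : K, a c = n ∧ b c = n)
    (y : K) (hy : IsIntegral N (a y)) : O.valuation (b y) = O.valuation (a y) := by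
  apply hN (a y) (b y) hy
  obtain ⟨q, hq⟩ : ∃ q, q = (minpoly N (a y)).map (algebraMap N Ω) := ⟨_, rfl⟩
  have hl : q ∈ Polynomial.lifts a := by
    rw [Polynomial.lifts_iff_coeff_lifts]
    intro n
    rw [hq, Polynomial.coeff_map]
    obtain ⟨c, hc, -⟩ := h _ ((minpoly N (a y)).coeff n).2
    exact ⟨c, hc⟩
  obtain ⟨r, hr⟩ := (Polynomial.mem_lifts q).1 hl
  have hb : r.map b = q := by
    ext n
    rw [← hr, Polynomial.coeff_map, Polynomial.coeff_map]
    have h2 : a (r.coeff n) = q.coeff n := by rw [← hr, Polynomial.coeff_map]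
    rw [hq, Polynomial.coeff_map] at h2
    obtain ⟨c, hc, hc'⟩ := h _ ((minpoly N (a y)).coeff n).2
    have h3 : r.coeff n = c := a.injective (h2.trans hc.symm)
    rw [h3, hc, hc']
  have e1 : ∀ f : K →+* Ω, f (Polynomial.eval y r) = (r.map f).eval (f y) := fun f => by
    rw [Polynomial.eval_map, Polynomial.eval₂_at_apply]
  have h0 : Polynomial.eval y r = 0 := by
    apply a.injective
    rw [map_zero, e1, hr, hq, Polynomial.eval_map_algebraMap, minpoly.aeval]
  have h1 := e1 b
  rw [h0, map_zero, hb, hq, Polynomial.eval_map_algebraMap] at h1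
  exact h1.symm

end val

end Pool.Agent.H73.IX
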