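import Pool.Agent.H73.IX.HLFa

/-!
# Row HLF: the embedding into the ultrapower
-/

set_option autoImplicit false

open Finset

namespace Pool.Agent.H73.IX

universe u

open Pool.Agent.H15.IX

section vec

variable {Ω : Type u} [Field Ω] {O : ValuationSubring Ω} {N F : Subfield Ω}

lemma vec_vars {σ : Type u} (w : σ → Ω) (hw : ∀ s, w s ∈ F) (hV : Vec O N F)
    (S : Finset (MvPolynomial σ N)) : ∃ z : σ → N, ∀ P ∈ S, ∀ Q ∈ S,
      (O.valuation (MvPolynomial.aeval w P) ≤ O.valuation (MvPolynomial.aeval w Q) ↔
        O.valuation (MvPolynomial.aeval (fun s => (z s : Ω)) P) ≤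
          O.valuation (MvPolynomial.aeval (fun s => (z s : Ω)) Q)) := by
  classical
  obtain ⟨T, hT⟩ : ∃ T : Finset σ, T = S.biUnion fun P => P.vars := ⟨_, rfl⟩
  obtain ⟨e, he⟩ : ∃ e : Fin T.card → σ, e = fun i => ((T.equivFin.symm i : T) : σ) := ⟨_, rfl⟩
  have hinj : Function.Injective e := by
    intro i j hij
    rw [he] at hij
    exact T.equivFin.symm.injective (Subtype.ext hij)
  have hrange : ∀ s ∈ T, s ∈ Set.range e := by
    intro s hs
    refine ⟨T.equivFin ⟨s, hs⟩, ?_⟩
    rw [he]
    show ((T.equivFin.symm (T.equivFin ⟨s, hs⟩) : T) : σ) = s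
    rw [Equiv.symm_apply_apply]
  have hren : ∀ P ∈ S, ∃ q : MvPolynomial (Fin T.card) N, MvPolynomial.rename e q = P := by
    intro P hP
    apply MvPolynomial.exists_rename_eq_of_vars_subset_range P e hinj
    intro s hs
    apply hrange
    rw [hT, mem_biUnion]
    exact ⟨P, hP, hs⟩
  choose! R hR using hren
  obtain ⟨z, hz, hz2⟩ := hV T.card (fun i => w (e i)) (fun i => hw _)
    (S.image fun P => MvPolynomial.map (algebraMap N Ω) (R P)) (by
      intro P hP s
      rw [mem_image] at hP
      obtain ⟨P', -, rfl⟩ := hP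
      rw [MvPolynomial.coeff_map]
      exact ((R P').coeff s).2)
  refine ⟨Function.extend e (fun i => (⟨z i, hz i⟩ : N)) 0, ?_⟩
  have h1 : ∀ P ∈ S, MvPolynomial.aeval w P =
      MvPolynomial.eval (fun i => w (e i)) (MvPolynomial.map (algebraMap N Ω) (R P)) := by
    intro P hP
    conv_lhs => rw [← hR P hP]
    rw [MvPolynomial.aeval_rename, MvPolynomial.eval_map]
    rfl
  have h2 : ∀ P ∈ S, MvPolynomial.aeval
      (fun s => ((Function.extend e (fun i => (⟨z i, hz i⟩ : N)) 0 s : N) : Ω)) P =
      MvPolynomial.eval z (MvPolynomial.map (algebraMap N Ω) (R P)) := by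
    intro P hP
    conv_lhs => rw [← hR P hP]
    rw [MvPolynomial.aeval_rename, MvPolynomial.eval_map, MvPolynomial.aeval_def]
    congr 1
    funext i
    show ((Function.extend e (fun i => (⟨z i, hz i⟩ : N)) 0 (e i) : N) : Ω) = z i
    rw [hinj.extend_apply]
  intro P hP Q hQ
  rw [h1 P hP, h1 Q hQ, h2 P hP, h2 Q hQ]
  exact hz2 _ (mem_image_of_mem _ hP) _ (mem_image_of_mem _ hQ)

lemma vec_ultra {σ : Type u} (w : σ → Ω) (hw : ∀ s, w s ∈ F) (hV : Vec O N F) :
    ∃ (I : Type u) (W : Ultrafilter I) (z : I → σ → N), ∀ P Q : MvPolynomial σ N,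
      (O.valuation (MvPolynomial.aeval w P) ≤ O.valuation (MvPolynomial.aeval w Q) ↔
        ∀ᶠ i in (W : Filter I), O.valuation (MvPolynomial.aeval (fun s => (z i s : Ω)) P) ≤
          O.valuation (MvPolynomial.aeval (fun s => (z i s : Ω)) Q)) := by
  classical
  choose z hz using vec_vars w hw hV
  refine ⟨Finset (MvPolynomial σ N), Ultrafilter.of Filter.atTop, z, fun P Q => ?_⟩
  have h1 : ∀ᶠ i in ((Ultrafilter.of Filter.atTop : Ultrafilter (Finset (MvPolynomial σ N))) :
      Filter (Finset (MvPolynomial σ N))), P ∈ i ∧ Q ∈ i := by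
    apply Ultrafilter.of_le
    filter_upwards [Filter.eventually_ge_atTop ({P, Q} : Finset (MvPolynomial σ N))] with i hi
    exact ⟨hi (by simp), hi (by simp)⟩
  constructor
  · intro h
    filter_upwards [h1] with i hi using (hz i P hi.1 Q hi.2).1 h
  · intro h
    obtain ⟨i, hi, hi'⟩ := (h1.and h).exists
    exact (hz i P hi.1 Q hi.2).2 hi'

end vec

section emb

variable {Ω : Type u} [Field Ω] {O : ValuationSubring Ω} {N F : Subfield Ω}

/-- the valuation ring of the algebraic closure of `N` -/
abbrev An (O : ValuationSubring Ω) (N : Subfield Ω) :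
    ValuationSubring (algebraicClosure N Ω) := O.comap (algebraMap (algebraicClosure N Ω) Ω)

lemma mem_An {x : algebraicClosure N Ω} : x ∈ An O N ↔ (x : Ω) ∈ O := Iff.rfl

/-- the homomorphism to the ultrapower -/
lemma exists_j {E : Type u} [Field E] (w : E →+* Ω) (hw : ∀ x, w x ∈ F) (hV : Vec O N F) :
    ∃ (I : Type u) (W : Ultrafilter I) (j : E →+* Up W (algebraicClosure N Ω)),
      (∀ x, w x ∈ O ↔ j x ∈ star W (An O N)) ∧
      (∀ x, ∃ f : I → N, j x = cl W _ (fun i => algebraMap N (algebraicClosure N Ω) (f i))) ∧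
      ∀ (x : E) (n : N), w x = n →
        j x = cl W _ (fun _ => algebraMap N (algebraicClosure N Ω) n) := by
  obtain ⟨I, W, z, hz⟩ := vec_ultra (fun x : E => w x) hw hV
  have h0 : ∀ P : MvPolynomial E N, MvPolynomial.aeval (fun x : E => w x) P = 0 →
      ∀ᶠ i in (W : Filter I), MvPolynomial.aeval (fun s => (z i s : Ω)) P = 0 := by
    intro P hP
    have h1 := (hz P 0).1 (by rw [hP, map_zero]; exact zero_le)
    filter_upwards [h1] with i hi
    rwa [map_zero, map_zero, nonpos_iff_eq_zero, map_eq_zero] at hi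
  have hmul : ∀ x y : E, ∀ᶠ i in (W : Filter I), z i (x * y) = z i x * z i y := by
    intro x y
    have := h0 (MvPolynomial.X (x * y) - MvPolynomial.X x * MvPolynomial.X y) (by simp)
    filter_upwards [this] with i hi
    simp only [map_sub, map_mul, MvPolynomial.aeval_X] at hi
    apply Subtype.ext
    push_cast
    exact sub_eq_zero.1 hi
  have hadd : ∀ x y : E, ∀ᶠ i in (W : Filter I), z i (x + y) = z i x + z i y := by
    intro x y
    have := h0 (MvPolynomial.X (x + y) - (MvPolynomial.X x + MvPolynomial.X y)) (by simp)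
    filter_upwards [this] with i hi
    simp only [map_sub, map_add, MvPolynomial.aeval_X] at hi
    apply Subtype.ext
    push_cast
    exact sub_eq_zero.1 hi
  have hcon : ∀ (x : E) (n : N), w x = n → ∀ᶠ i in (W : Filter I), z i x = n := by
    intro x n hn
    have := h0 (MvPolynomial.X x - MvPolynomial.C n) (by
      simp only [map_sub, MvPolynomial.aeval_X, MvPolynomial.aeval_C]
      rw [hn]
      exact sub_self _)
    filter_upwards [this] with i hi
    simp only [map_sub, MvPolynomial.aeval_X, MvPolynomial.aeval_C] at hi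
    exact Subtype.ext (sub_eq_zero.1 hi)
  refine ⟨I, W, { toFun := fun x => cl W _ (fun i => algebraMap N (algebraicClosure N Ω) (z i x))
                  map_one' := ?_
                  map_mul' := ?_
                  map_zero' := ?_
                  map_add' := ?_ }, ?_, ?_, ?_⟩
  · rw [← map_one (cl W _), cl_eq]
    filter_upwards [hcon 1 1 (by simp)] with i hi
    rw [hi, map_one]; rfl
  · intro x y
    rw [← map_mul, cl_eq]
    filter_upwards [hmul x y] with i hi
    rw [hi, map_mul]; rfl
  · rw [← map_zero (cl W _), cl_eq]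
    filter_upwards [hcon 0 0 (by simp)] with i hi
    rw [hi, map_zero]; rfl
  · intro x y
    rw [← map_add, cl_eq]
    filter_upwards [hadd x y] with i hi
    rw [hi, map_add]; rfl
  · intro x
    have h1 := hz (MvPolynomial.X x) 1
    simp only [map_one, MvPolynomial.aeval_X] at h1
    rw [O.valuation_le_one_iff] at h1
    rw [h1]
    show _ ↔ cl W _ (fun i => algebraMap N (algebraicClosure N Ω) (z i x)) ∈ star W (An O N)
    rw [mem_star]
    apply Filter.eventually_congr
    exact Filter.Eventually.of_forall fun i => O.valuation_le_one_iff _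
  · intro x
    exact ⟨fun i => z i x, rfl⟩
  · intro x n hn
    show cl W _ (fun i => algebraMap N (algebraicClosure N Ω) (z i x)) = _
    rw [cl_eq]
    filter_upwards [hcon x n hn] with i hi
    rw [hi]

end emb

end Pool.Agent.H73.IX
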