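import Pool.Agent.H73.IX.HLFb

/-!
# Row HLF: automorphisms of the ultrapower
-/

set_option autoImplicit false

open Finset

namespace Pool.Agent.H73.IX

universe u

open Pool.Agent.H15.IX

variable {Ω : Type u} [Field Ω] [IsAlgClosed Ω] {O : ValuationSubring Ω} {N F : Subfield Ω}

lemma exists_jb (hCNJ : T_CNJ.{u}) {Λ : Type u} [Field Λ] [CharZero Λ] [IsAlgClosed Λ]
    (F' : Subfield Λ) [Algebra.IsAlgebraic F' Λ] (ι : Λ →+* Ω) (hF : ∀ x ∈ F', ι x ∈ F)
    (hV : Vec O N F) :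
    ∃ (I : Type u) (W : Ultrafilter I) (jb : Λ →+* Up W (algebraicClosure N Ω)),
      (∀ x, ι x ∈ O ↔ jb x ∈ star W (An O N)) ∧
      (∀ x ∈ F', ∃ f : I → N,
        jb x = cl W _ (fun i => algebraMap N (algebraicClosure N Ω) (f i))) ∧
      ∀ x ∈ F', ∀ (n : N), ι x = n →
        jb x = cl W _ (fun _ => algebraMap N (algebraicClosure N Ω) n) := by
  obtain ⟨I, W, j, h1, h2, h3⟩ := exists_j (O := O) (N := N) (F := F)
    (ι.comp (algebraMap F' Λ)) (fun x => hF _ x.2) hV
  have : IsAlgClosed (algebraicClosure N Ω) := (algebraicClosure.isAlgClosure N Ω).isAlgClosed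
  have : IsAlgClosed (Up W (algebraicClosure N Ω)) := up_isAlgClosed
  let : Algebra F' (Up W (algebraicClosure N Ω)) := j.toAlgebra
  obtain ⟨l, -⟩ : ∃ l : Λ →ₐ[F'] Up W (algebraicClosure N Ω), True := ⟨IsAlgClosed.lift, trivial⟩
  have hl : ∀ x : F', l (x : Λ) = j x := fun x => l.commutes x
  have : CharZero F' := (algebraMap F' Λ).charZero
  obtain ⟨ρ, hρ⟩ := hCNJ F' Λ (O.comap ι) ((star W (An O N)).comap (l : Λ →+* _)) (by
    ext x
    rw [ValuationSubring.mem_comap, ValuationSubring.mem_comap, ValuationSubring.mem_comap,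
      ValuationSubring.mem_comap]
    show ι (x : Λ) ∈ O ↔ l (x : Λ) ∈ star W (An O N)
    rw [hl]
    exact h1 x)
  refine ⟨I, W, (l : Λ →+* _).comp (ρ : Λ →+* Λ), ?_, ?_, ?_⟩
  · intro x
    exact hρ x
  · intro x hx
    obtain ⟨f, hf⟩ := h2 ⟨x, hx⟩
    refine ⟨f, ?_⟩
    show l (ρ x) = _
    have : ρ x = x := ρ.commutes ⟨x, hx⟩
    rw [this, ← hf]
    exact hl ⟨x, hx⟩
  · intro x hx n hn
    show l (ρ x) = _
    have : ρ x = x := ρ.commutes ⟨x, hx⟩
    rw [this, ← h3 ⟨x, hx⟩ n hn]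
    exact hl ⟨x, hx⟩

/-- automorphisms acting coordinatewise -/
def Gm {I K : Type u} [Field K] (W : Ultrafilter I) (g : I → K →+* K) : Up W K →+* Up W K where
  toFun := Filter.Germ.map' (fun f i => g i (f i)) (by
    intro f f' h
    exact h.mono fun i hi => by
      show g i (f i) = g i (f' i)
      rw [hi])
  map_one' := by
    show cl W K (fun i => g i 1) = cl W K 1
    rw [cl_eq]
    exact Filter.Eventually.of_forall fun i => map_one _
  map_zero' := by
    show cl W K (fun i => g i 0) = cl W K 0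
    rw [cl_eq]
    exact Filter.Eventually.of_forall fun i => map_zero _
  map_mul' := by
    intro x y
    obtain ⟨f, rfl⟩ := cl_surj x
    obtain ⟨h, rfl⟩ := cl_surj y
    show cl W K (fun i => g i (f i * h i)) =
      cl W K (fun i => g i (f i)) * cl W K (fun i => g i (h i))
    rw [← map_mul, cl_eq]
    exact Filter.Eventually.of_forall fun i => map_mul _ _ _
  map_add' := by
    intro x y
    obtain ⟨f, rfl⟩ := cl_surj x
    obtain ⟨h, rfl⟩ := cl_surj y
    show cl W K (fun i => g i (f i + h i)) =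
      cl W K (fun i => g i (f i)) + cl W K (fun i => g i (h i))
    rw [← map_add, cl_eq]
    exact Filter.Eventually.of_forall fun i => map_add _ _ _

lemma Gm_cl {I K : Type u} [Field K] (W : Ultrafilter I) (g : I → K →+* K) (f : I → K) :
    Gm W g (cl W K f) = cl W K (fun i => g i (f i)) := rfl

lemma An_aut (hN : Hns O N) (g : algebraicClosure N Ω ≃ₐ[N] algebraicClosure N Ω)
    (x : algebraicClosure N Ω) : x ∈ An O N ↔ g x ∈ An O N := by
  rw [mem_An, mem_An, ← O.valuation_le_one_iff, ← O.valuation_le_one_iff]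
  have h := hns_hom hN (algebraMap (algebraicClosure N Ω) Ω)
    ((algebraMap (algebraicClosure N Ω) Ω).comp (g : algebraicClosure N Ω →+* _)) (by
      intro n hn
      refine ⟨algebraMap N (algebraicClosure N Ω) ⟨n, hn⟩, rfl, ?_⟩
      show algebraMap (algebraicClosure N Ω) Ω (g (algebraMap N (algebraicClosure N Ω) ⟨n, hn⟩)) = n
      rw [g.commutes]
      rfl) x x.2
  have h' : O.valuation ((g x : algebraicClosure N Ω) : Ω) = O.valuation (x : Ω) := h
  rw [h']

lemma claimA {Λ : Type u} [Field Λ] [CharZero Λ] [IsAlgClosed Λ] [CharZero Ω]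
    (F' : Subfield Λ) [Algebra.IsAlgebraic F' Λ] (ι : Λ →+* Ω) (hN : Hns O N)
    {I : Type u} {W : Ultrafilter I} (jb : Λ →+* Up W (algebraicClosure N Ω))
    (h1 : ∀ x, ι x ∈ O ↔ jb x ∈ star W (An O N))
    (h2 : ∀ x ∈ F', ∃ f : I → N,
        jb x = cl W _ (fun i => algebraMap N (algebraicClosure N Ω) (f i)))
    (x : Λ) (hx : ∀ σ : Λ ≃ₐ[F'] Λ, (∀ y, ι y ∈ O ↔ ι (σ y) ∈ O) → σ x = x) :
    ∃ f : I → N, jb x = cl W _ (fun i => algebraMap N (algebraicClosure N Ω) (f i)) := by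
  classical
  have : IsAlgClosure N (algebraicClosure N Ω) := algebraicClosure.isAlgClosure N Ω
  have : IsAlgClosed (algebraicClosure N Ω) := (algebraicClosure.isAlgClosure N Ω).isAlgClosed
  have : CharZero N := (algebraMap N Ω).charZero
  have : Normal N (algebraicClosure N Ω) := IsAlgClosure.normal N _
  have : IsGalois N (algebraicClosure N Ω) := ⟨⟩
  have : IsAlgClosure F' Λ := ⟨inferInstance, inferInstance⟩
  have : Normal F' Λ := IsAlgClosure.normal F' _
  obtain ⟨f, hf⟩ := cl_surj (jb x)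
  have hg : ∀ i, ∃ g : algebraicClosure N Ω ≃ₐ[N] algebraicClosure N Ω, g (f i) = f i →
      ∃ n : N, f i = algebraMap N (algebraicClosure N Ω) n := by
    intro i
    by_cases hi : ∃ n : N, f i = algebraMap N (algebraicClosure N Ω) n
    · exact ⟨1, fun _ => hi⟩
    · by_contra hc
      push Not at hc
      apply hi
      have : f i ∈ (⊥ : IntermediateField N (algebraicClosure N Ω)) := by
        rw [InfiniteGalois.mem_bot_iff_fixed]
        intro g
        exact (hc g).1
      obtain ⟨n, hn⟩ := IntermediateField.mem_bot.1 this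
      exact ⟨n, hn.symm⟩
  choose g hg using hg
  obtain ⟨Γ, hΓ⟩ : ∃ Γ, Γ = Gm W (fun i => (g i : algebraicClosure N Ω →+* _)) := ⟨_, rfl⟩
  have hΓcl : ∀ f, Γ (cl W _ f) = cl W _ (fun i => g i (f i)) := by
    intro f
    rw [hΓ]
    exact Gm_cl W _ f
  have hΓF : ∀ y ∈ F', Γ (jb y) = jb y := by
    intro y hy
    obtain ⟨n, hn⟩ := h2 y hy
    rw [hn, hΓcl]
    congr 1
    funext i
    exact (g i).commutes _
  let : Algebra F' (Up W (algebraicClosure N Ω)) := (jb.comp (algebraMap F' Λ)).toAlgebra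
  let : Algebra Λ (Up W (algebraicClosure N Ω)) := jb.toAlgebra
  have hst : @IsScalarTower F' Λ (Up W (algebraicClosure N Ω)) Algebra.toSMul Algebra.toSMul
      Algebra.toSMul := IsScalarTower.of_algebraMap_eq (fun _ => rfl)
  obtain ⟨ϕ, hϕ⟩ : ∃ ϕ : Λ →ₐ[F'] Up W (algebraicClosure N Ω), ∀ y, ϕ y = Γ (jb y) :=
    ⟨{ Γ.comp jb with commutes' := fun r => hΓF _ r.2 }, fun _ => rfl⟩
  obtain ⟨σ, hσ⟩ : ∃ σ : Λ ≃ₐ[F'] Λ, ∀ y, jb (σ y) = Γ (jb y) := by
    refine ⟨AlgHom.restrictNormal' ϕ Λ, fun y => ?_⟩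
    rw [← hϕ]
    exact AlgHom.restrictNormal_commutes ϕ Λ y
  have hpres : ∀ y, ι y ∈ O ↔ ι (σ y) ∈ O := by
    intro y
    rw [h1 y, h1 (σ y), hσ]
    obtain ⟨a, ha⟩ := cl_surj (jb y)
    rw [← ha, hΓcl, mem_star, mem_star]
    exact Filter.eventually_congr (Filter.Eventually.of_forall fun i => An_aut hN (g i) (a i))
  have hfix := hσ x
  rw [hx σ hpres, ← hf, hΓcl, cl_eq] at hfix
  have hn : ∀ i, ∃ n : N, g i (f i) = f i → f i = algebraMap N (algebraicClosure N Ω) n := by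
    intro i
    by_cases hi : g i (f i) = f i
    · obtain ⟨n, hn⟩ := hg i hi
      exact ⟨n, fun _ => hn⟩
    · exact ⟨0, fun h => absurd h hi⟩
  choose n hn using hn
  refine ⟨n, ?_⟩
  rw [← hf, cl_eq]
  filter_upwards [hfix] with i hi using hn i hi.symm

end Pool.Agent.H73.IX
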