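import Pool.Agent.H39.IX.Targets2

/-!
# ORN: `w₂` is orthogonal to `Q`
-/

set_option autoImplicit false

open scoped InnerProductSpace Topology
open Filter Finset Pool.Agent.H80.G2 Pool.Agent.H39.IX

namespace Pool.Agent.H73.IX

theorem pf_ORN (hIDX : T_IDX) (hCE : T_CE) (hQPN : T_QPN) : T_ORN := by
  intro H _ _ _ M N P A Q w s w₂ G ξ ζ hS hPN hC hQf hW hnor η hη x hx
  obtain ⟨q1, q2, q3⟩ := hQPN H M N P A Q w G ξ ζ hS hPN
  obtain ⟨e, he, -, hpe⟩ := hCE H N Q η hη q2 w₂ hW.uw.1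
  have hw : star w₂ * w₂ = 1 := hW.uw.2.1
  have hw' : w₂ * star w₂ = 1 := hW.uw.2.2
  have hpe' : ∀ p ∈ Q, tr η (p * w₂) = tr η (p * e) := by
    intro p hp
    have h1 := hpe p hp
    rw [mul_sub, tr_sub hη.sum] at h1
    exact sub_eq_zero.1 h1
  -- the intertwining relation
  have hint : ∀ y ∈ Q, e * y = (w₂ * y * star w₂) * e := by
    intro y hy
    have hty := hnor y hy
    have hth : (w₂ * y * star w₂) * w₂ = w₂ * y := by rw [mul_assoc, hw, mul_one]
    have hD : ∀ p ∈ Q, tr η (p * (e * y - (w₂ * y * star w₂) * e)) = 0 := by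
      intro p hp
      rw [mul_sub, tr_sub hη.sum, sub_eq_zero]
      have a1 : tr η (p * (e * y)) = tr η ((y * p) * e) := by
        rw [← mul_assoc, hη.comm _ (q2 _ (mul_mem hp he)) _ (q2 _ hy), ← mul_assoc]
      have a2 : tr η ((y * p) * w₂) = tr η (p * (w₂ * y)) := by
        rw [mul_assoc, hη.comm _ (q2 _ hy) _ (mul_mem (q2 _ hp) hW.uw.1), mul_assoc]
      have a3 : tr η (p * (w₂ * y)) = tr η ((p * (w₂ * y * star w₂)) * w₂) := by
        rw [mul_assoc p, hth]
      rw [a1, ← hpe' _ (mul_mem hy hp), a2, a3, hpe' _ (mul_mem hp hty), mul_assoc p]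
    have hDm : e * y - (w₂ * y * star w₂) * e ∈ Q := sub_mem (mul_mem he hy) (mul_mem hty he)
    have h0 := hη.faith _ (q2 _ hDm) (hD _ (star_mem hDm))
    exact sub_eq_zero.1 h0
  have hcomm : ∀ y ∈ Q, (star w₂ * e) * y = y * (star w₂ * e) := by
    intro y hy
    calc (star w₂ * e) * y = star w₂ * ((w₂ * y * star w₂) * e) := by
          rw [mul_assoc, hint y hy]
      _ = (star w₂ * w₂) * (y * (star w₂ * e)) := by simp only [mul_assoc]
      _ = y * (star w₂ * e) := by rw [hw, one_mul]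
  -- the groups are in `Q`
  have hG : ∀ g, InG G g → g ∈ Q := by
    intro g hg
    obtain ⟨n, hn⟩ := hg
    have hg' : InG G g := ⟨n, hn⟩
    have hu1 : star g * g = 1 := hS.grp.uni n g hn
    have hu2 : g * star g = 1 := by
      have := hS.grp.uni n (star g) (hS.grp.star n g hn)
      rwa [star_star] at this
    have hgA : g ∈ A := (hS.gen g).2 fun y hy => hy g hg'
    refine q1 g ⟨⟨hS.GN g hg', hu1, hu2⟩, g, ⟨⟨hS.GP g hg', hu1, hu2⟩, ?_, ?_⟩, ?_⟩
    · intro a ha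
      exact mul_mem (mul_mem hgA ha) (star_mem hgA)
    · intro a ha
      exact mul_mem (mul_mem (star_mem hgA) ha) hgA
    · intro g' _
      rfl
  have hyN : star w₂ * e ∈ N := mul_mem (star_mem hW.uw.1) (q2 e he)
  have hyQ : star w₂ * e ∈ Q := q3 _ hyN fun g hg => (hcomm g (hG g hg)).symm
  obtain ⟨μ, hμ⟩ := hQf _ hyQ hcomm
  have heμ : e = μ • w₂ := by
    have h1 : w₂ * (star w₂ * e) = e := by rw [← mul_assoc, hw', one_mul]
    rw [← h1, hμ, mul_smul_comm, mul_one]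
  by_cases hμ0 : μ = 0
  · rw [hpe' x hx, heμ, hμ0, zero_smul, mul_zero, tr_zero]
  · exfalso
    have hwQ : w₂ ∈ Q := by
      have h1 : w₂ = μ⁻¹ • e := by rw [heμ, smul_smul, inv_mul_cancel₀ hμ0, one_smul]
      rw [h1]
      exact smul_mem' Q _ he
    obtain ⟨a, haP, ha⟩ := hC.QP w₂ hwQ
    have hn : ‖w₂‖ ≤ 1 := norm_of_uni hW.uw
    have h2 : ‖w - a‖ ≤ 5 / 100 := by
      have h3 : w - a = -(w₂ - w) + (w₂ - a) := by abel
      rw [h3]
      refine (norm_add_le _ _).trans ?_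
      rw [norm_neg]
      have h4 := hW.ww
      linarith
    obtain ⟨-, -, -, -, hort⟩ := hIDX H M P w ξ hS.trM hS.idx
    have h5 := hort a haP 1 (one_mem P)
    rw [one_mul] at h5
    have h6 : star (w - a) * (w - a) = (star w * w - star w * a) - (star a * w - star a * a) := by
      rw [star_sub, sub_mul, mul_sub, mul_sub]
    have h7 := tr_star_mul hS.trM.sum (w - a)
    rw [h6, tr_sub hS.trM.sum, tr_sub hS.trM.sum, tr_sub hS.trM.sum, h5.1, h5.2,
      hS.idx.uni.2.1, tr_one' hS.trM.one, tr_star_mul hS.trM.sum] at h7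
    have h8 : n2 ξ (w - a) ^ 2 = 1 + n2 ξ a ^ 2 := by
      have h9 : ((1 + n2 ξ a ^ 2 : ℝ) : ℂ) = ((n2 ξ (w - a) ^ 2 : ℝ) : ℂ) := by
        rw [← h7]
        push_cast
        ring
      exact (Complex.ofReal_injective h9).symm
    have h10 := n2_le_norm hS.trM.one (w - a)
    have h11 := n2_nonneg ξ (w - a)
    nlinarith [sq_nonneg (n2 ξ a)]

end Pool.Agent.H73.IX
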